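import Pool.Agent.H61R3.AT3

set_option autoImplicit false
set_option linter.unusedSectionVars false

open scoped Pointwise

noncomputable section

namespace TH357EN

open H61R3AT

variable {G : Type*} [Group G] {κ : Type*}

lemma kemp [DecidableEq G] (M : ℕ) (hord : ∀ g : G, IsOfFinOrder g → g ≠ 1 → M ≤ orderOf g)
    (s t : Finset G) (hs : s.Nonempty) (ht : t.Nonempty) :
    s.card + t.card ≤ (s * t).card + 1 ∨ M ≤ (s * t).card := by
  have hm : (M : ℕ∞) ≤ Monoid.minOrder G := by
    rw [Monoid.le_minOrder]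
    intro a ha ha'
    exact_mod_cast hord a ha' ha
  have h := cauchy_davenport_minOrder_mul hs ht
  rcases le_total (Monoid.minOrder G) ((s.card + t.card - 1 : ℕ) : ℕ∞) with h1 | h1
  · right
    rw [min_eq_left h1] at h
    exact_mod_cast hm.trans h
  · left
    rw [min_eq_right h1, Nat.cast_le] at h
    omega

/-- A sequence which is superadditive up to one until it becomes large, with total at most `n²`,
has all its partial sums at most squares. -/
lemma seq' (n : ℕ) (l : ℕ → ℕ)
    (h : ∀ s s', s + s' < n → l s + l s' ≤ l (s + s') + 1 ∨ 2 * n ≤ l (s + s') + 1)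
    (htot : ∑ s ∈ Finset.range n, l s ≤ n ^ 2) (m : ℕ) (hm : m ≤ n) :
    ∑ s ∈ Finset.range m, l s ≤ m ^ 2 := by
  set M : ℕ → ℤ := fun k => ∑ s ∈ Finset.range k, ((l s : ℤ) - 1) with hM
  have hMs : ∀ k, M (k + 1) = M k + ((l k : ℤ) - 1) := fun k => by
    simp only [hM, Finset.sum_range_succ]
  have hkey : ∀ k, k < n → (((k : ℤ) - 1) * M (k + 1) ≥ ((k : ℤ) + 1) * M k ∨
      M (k + 1) ≥ M k + 2 * k) := by
    intro k hk
    by_cases hall : ∀ a ∈ Finset.range (k + 1), l a + l (k - a) ≤ l k + 1
    · left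
      have h1 : ∀ a ∈ Finset.range (k + 1),
          ((l a : ℤ) - 1) + ((l (k - a) : ℤ) - 1) ≤ (l k : ℤ) - 1 := by
        intro a ha
        have := hall a ha
        zify at this
        linarith
      have h2 := Finset.sum_le_sum h1
      rw [Finset.sum_add_distrib, Finset.sum_const, Finset.card_range, nsmul_eq_mul] at h2
      have h3 : ∑ a ∈ Finset.range (k + 1), ((l (k - a) : ℤ) - 1) = M (k + 1) := by
        rw [hM]
        exact Finset.sum_range_reflect (fun s => (l s : ℤ) - 1) (k + 1)
      rw [h3] at h2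
      have h4 : M (k + 1) + M (k + 1) ≤ ((k : ℤ) + 1) * ((l k : ℤ) - 1) := by
        have : (((k + 1 : ℕ)) : ℤ) = (k : ℤ) + 1 := by push_cast; ring
        rw [this] at h2
        exact h2
      have h5 : (l k : ℤ) - 1 = M (k + 1) - M k := by rw [hMs]; ring
      rw [h5] at h4
      nlinarith
    · right
      push Not at hall
      obtain ⟨a, ha, hlt⟩ := hall
      rw [Finset.mem_range] at ha
      have h1 := h a (k - a) (by omega)
      rw [show a + (k - a) = k by omega] at h1
      have h2 : 2 * n ≤ l k + 1 := by omega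
      rw [hMs]
      zify at h2 hk
      linarith
  have hMm : ∀ j, j ≤ n → M (n - j) ≤ ((n - j : ℕ) : ℤ) * (((n - j : ℕ) : ℤ) - 1) := by
    intro j
    induction j with
    | zero =>
      intro _
      rw [Nat.sub_zero]
      have h6 : M n = (∑ s ∈ Finset.range n, (l s : ℤ)) - n := by
        simp only [hM, Finset.sum_sub_distrib, Finset.sum_const, Finset.card_range, nsmul_eq_mul,
          mul_one]
      rw [h6]
      have h7 : (∑ s ∈ Finset.range n, (l s : ℤ)) ≤ (n : ℤ) ^ 2 := by exact_mod_cast htot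
      nlinarith
    | succ j ih =>
      intro hj
      have ih' := ih (by omega)
      obtain ⟨k, hk⟩ : ∃ k, n - (j + 1) = k := ⟨_, rfl⟩
      have hk2 : n - j = k + 1 := by omega
      rw [hk]
      rw [hk2] at ih'
      have h8 := hkey k (by omega)
      push_cast at ih'
      rcases Nat.eq_zero_or_pos k with h0 | h0
      · subst h0
        simp [hM]
      · have hk1 : (1 : ℤ) ≤ k := by exact_mod_cast h0
        rcases h8 with h8 | h8
        · have h9 : ((k : ℤ) + 1) * M k ≤ ((k : ℤ) + 1) * ((k : ℤ) * ((k : ℤ) - 1)) := by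
            have h10 : ((k : ℤ) - 1) * M (k + 1)
                ≤ ((k : ℤ) - 1) * (((k : ℤ) + 1) * ((k : ℤ) + 1 - 1)) :=
              mul_le_mul_of_nonneg_left ih' (by linarith)
            nlinarith
          exact le_of_mul_le_mul_left h9 (by linarith)
        · nlinarith
  have h11 := hMm (n - m) (by omega)
  rw [show n - (n - m) = m by omega] at h11
  have h12 : M m = (∑ s ∈ Finset.range m, (l s : ℤ)) - m := by
    simp only [hM, Finset.sum_sub_distrib, Finset.sum_const, Finset.card_range, nsmul_eq_mul,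
      mul_one]
  rw [h12] at h11
  have h13 : (∑ s ∈ Finset.range m, (l s : ℤ)) ≤ (m : ℤ) ^ 2 := by nlinarith
  exact_mod_cast h13

variable (S : Finset (κ × G))

lemma Lv_super' (hord : ∀ g : G, IsOfFinOrder g → g ≠ 1 → 2 * S.card - 1 ≤ orderOf g)
    (s s' : ℕ) (h : s + s' < S.card) :
    (Lv S s).card + (Lv S s').card ≤ (Lv S (s + s')).card + 1
      ∨ 2 * S.card ≤ (Lv S (s + s')).card + 1 := by
  classical
  have hs : s < S.card := by omega
  have hs' : s' < S.card := by omega
  have h1 : (1 : G) ∈ Lv S s := by rw [mem_Lv S s hs, cnt_one]; omega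
  have h1' : (1 : G) ∈ Lv S s' := by rw [mem_Lv S s' hs', cnt_one]; omega
  have h2 : (Lv S s * Lv S s').card ≤ (Lv S (s + s')).card := by
    apply Finset.card_le_card
    intro z hz
    obtain ⟨x, hx, y, hy, rfl⟩ := Finset.mem_mul.1 hz
    rw [mem_Lv S s hs] at hx
    rw [mem_Lv S s' hs'] at hy
    rw [mem_Lv S _ h]
    have := cnt_mul S x y
    omega
  rcases kemp _ hord _ _ ⟨1, h1⟩ ⟨1, h1'⟩ with h3 | h3
  · left; omega
  · right; omega

/-- the majorisation bound -/
lemma upper' (hord : ∀ g : G, IsOfFinOrder g → g ≠ 1 → 2 * S.card - 1 ≤ orderOf g)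
    (t : ℕ) (ht : t ≤ S.card) :
    ∑ y ∈ Y S, (cnt S y - t) ≤ (S.card - t) ^ 2 := by
  rw [layer S t ht]
  apply seq' S.card (fun s => (Lv S s).card) (fun s s' h => Lv_super' S hord s s' h) _ _ (by omega)
  have := layer S 0 (by omega)
  rw [Nat.sub_zero] at this
  rw [← this]
  simpa using total S

end TH357EN
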