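import Pool.Agent.TH357.EN.E0

set_option autoImplicit false
set_option linter.unusedSectionVars false

open scoped Pointwise

noncomputable section

namespace TH357EN

open H61R3AT

variable {G : Type*} [Group G] {κ : Type*}

/-- the key of a pair of points of a column set: the two labels and the left quotient -/
def key (x : (κ × G) × (κ × G)) : κ × κ × G := (x.1.1, x.2.1, x.2.2 * x.1.2⁻¹)

open Classical in
/-- number of pairs of `A` and pairs of `B` with the same key -/
def N (A B : Finset (κ × G)) : ℕ :=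
  (((A ×ˢ A) ×ˢ (B ×ˢ B)).filter fun z => key z.1 = key z.2).card

open Classical in
lemma N_eq (A B : Finset (κ × G)) (K : Finset (κ × κ × G))
    (hA : ∀ x ∈ A ×ˢ A, key x ∈ K) :
    N A B = ∑ k ∈ K, ((A ×ˢ A).filter fun x => key x = k).card
      * ((B ×ˢ B).filter fun x => key x = k).card := by
  unfold N
  rw [Finset.card_eq_sum_card_fiberwise (f := fun z => key z.1) (t := K)]
  · apply Finset.sum_congr rfl
    intro k _
    rw [← Finset.card_product]
    congr 1
    ext z
    simp only [Finset.mem_filter, Finset.mem_product]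
    constructor
    · rintro ⟨⟨⟨h1, h2⟩, h3⟩, h4⟩
      exact ⟨⟨h1, h4⟩, ⟨h2, h3 ▸ h4⟩⟩
    · rintro ⟨⟨h1, h4⟩, ⟨h2, h5⟩⟩
      exact ⟨⟨⟨h1, h2⟩, h4.trans h5.symm⟩, h4⟩
  · intro z hz
    have hz' := (Finset.mem_filter.1 (Finset.mem_coe.1 hz)).1
    exact Finset.mem_coe.2 (hA _ (Finset.mem_product.1 hz').1)

/-- Cauchy-Schwarz -/
lemma N_sq (A B : Finset (κ × G)) : (N A B : ℝ) ^ 2 ≤ (N A A : ℝ) * (N B B : ℝ) := by
  classical
  set K : Finset (κ × κ × G) := (A ×ˢ A).image key ∪ (B ×ˢ B).image key with hK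
  have hA : ∀ x ∈ A ×ˢ A, key x ∈ K := fun x hx =>
    Finset.mem_union_left _ (Finset.mem_image_of_mem _ hx)
  have hB : ∀ x ∈ B ×ˢ B, key x ∈ K := fun x hx =>
    Finset.mem_union_right _ (Finset.mem_image_of_mem _ hx)
  rw [N_eq A B K hA, N_eq A A K hA, N_eq B B K hB]
  push_cast
  have h := Finset.sum_mul_sq_le_sq_mul_sq K
    (fun k => (((A ×ˢ A).filter fun x => key x = k).card : ℝ))
    (fun k => (((B ×ˢ B).filter fun x => key x = k).card : ℝ))
  simpa [pow_two] using h

open Classical in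
/-- number of points of `A` moved into `B` -/
def W (A B : Finset (κ × G)) (y : G) : ℕ := (A.filter fun p => (p.1, p.2 * y) ∈ B).card

lemma W_self (A : Finset (κ × G)) (y : G) : W A A y = cnt A y := rfl

lemma sum_W_sq (T : Finset G) (A B : Finset (κ × G)) : ∑ y ∈ T, W A B y ^ 2 ≤ N A B := by
  classical
  have h1 : ∀ y, W A B y ^ 2 = (((A ×ˢ A).filter fun x => (x.1.1, x.1.2 * y) ∈ B
      ∧ (x.2.1, x.2.2 * y) ∈ B)).card := by
    intro y
    unfold W
    rw [pow_two, ← Finset.card_product]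
    congr 1
    ext x
    simp only [Finset.mem_product, Finset.mem_filter]
    tauto
  rw [Finset.sum_congr rfl fun y _ => h1 y, ← Finset.card_sigma]
  unfold N
  apply Finset.card_le_card_of_injOn
    (fun z => ((z.2, ((z.2.1.1, z.2.1.2 * z.1), (z.2.2.1, z.2.2.2 * z.1))) :
      ((κ × G) × (κ × G)) × ((κ × G) × (κ × G))))
  · intro z hz
    simp only [Finset.coe_sigma, Set.mem_sigma_iff, Finset.mem_coe, Finset.mem_filter,
      Finset.mem_product] at hz
    simp only [Finset.coe_filter, Set.mem_ofPred_eq, Finset.mem_product]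
    refine ⟨⟨hz.2.1, hz.2.2⟩, ?_⟩
    unfold key
    simp only [Prod.mk.injEq, true_and]
    group
  · intro z _ w _ hzw
    simp only [Prod.mk.injEq] at hzw
    obtain ⟨h2, ⟨h3, h4⟩, _⟩ := hzw
    have h5 : z.1 = w.1 := by
      rw [h2] at h4
      exact mul_left_cancel h4
    exact Sigma.ext h5 (heq_of_eq h2)

lemma N_self (A : Finset (κ × G)) : N A A ≤ ∑ y ∈ Y A, cnt A y ^ 2 := by
  classical
  have h1 : ∀ y, cnt A y ^ 2 = (((A ×ˢ A).filter fun x => (x.1.1, x.1.2 * y) ∈ A
      ∧ (x.2.1, x.2.2 * y) ∈ A)).card := by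
    intro y
    unfold cnt
    rw [pow_two, ← Finset.card_product]
    congr 1
    ext x
    simp only [Finset.mem_product, Finset.mem_filter]
    tauto
  rw [Finset.sum_congr rfl fun y _ => h1 y, ← Finset.card_sigma]
  unfold N
  apply Finset.card_le_card_of_injOn
    (fun z => (⟨z.1.1.2⁻¹ * z.2.1.2, z.1⟩ : Σ _ : G, (κ × G) × (κ × G)))
  · rintro ⟨⟨p, q⟩, ⟨p', q'⟩⟩ hz
    simp only [Finset.coe_filter, Set.mem_ofPred_eq, Finset.mem_product] at hz
    obtain ⟨⟨⟨h2, h3⟩, ⟨h4, h5⟩⟩, h6⟩ := hz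
    unfold key at h6
    simp only [Prod.mk.injEq] at h6
    obtain ⟨h7, h8, h9⟩ := h6
    have h10 : (p.1, p.2 * (p.2⁻¹ * p'.2)) = p' := by
      refine Prod.ext h7 ?_
      simp
    have h11 : (q.1, q.2 * (p.2⁻¹ * p'.2)) = q' := by
      refine Prod.ext h8 ?_
      show q.2 * (p.2⁻¹ * p'.2) = q'.2
      rw [← mul_assoc, h9]
      group
    simp only [Finset.coe_sigma, Set.mem_sigma_iff, Finset.mem_coe, Finset.mem_filter,
      Finset.mem_product]
    refine ⟨mem_Y A p p' h2 h4, ⟨h2, h3⟩, ?_, ?_⟩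
    · rw [h10]; exact h4
    · rw [h11]; exact h5
  · rintro ⟨⟨p, q⟩, ⟨p', q'⟩⟩ hz ⟨⟨r, s⟩, ⟨r', s'⟩⟩ hw h
    simp only [Finset.coe_filter, Set.mem_ofPred_eq, Finset.mem_product] at hz hw
    obtain ⟨_, h6⟩ := hz
    obtain ⟨_, h6'⟩ := hw
    unfold key at h6 h6'
    simp only [Prod.mk.injEq] at h6 h6'
    obtain ⟨h7, h8, h9⟩ := h6
    obtain ⟨h7', h8', h9'⟩ := h6'
    simp only [Sigma.mk.injEq, heq_eq_eq, Prod.mk.injEq] at h
    obtain ⟨h12, h13, h14⟩ := h
    subst h13 h14
    have h15 : p'.2 = r'.2 := mul_left_cancel h12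
    have h16 : p' = r' := Prod.ext (h7.symm.trans h7') h15
    subst h16
    have h17 : q'.2 = s'.2 := by
      have := h9.symm.trans h9'
      exact mul_right_cancel this
    have h18 : q' = s' := Prod.ext (h8.symm.trans h8') h17
    rw [h18]

/-- the energy of a set of `n` elements in a group whose nontrivial elements of finite order have
order at least `2 n - 1` is at most that of an interval -/
lemma energy (A : Finset (κ × G))
    (hord : ∀ g : G, IsOfFinOrder g → g ≠ 1 → 2 * A.card - 1 ≤ orderOf g) :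
    3 * (N A A : ℝ) ≤ 2 * (A.card : ℝ) ^ 3 + A.card := by
  classical
  set n := A.card with hn
  have h1 : ∀ y, cnt A y ^ 2 = cnt A y + 2 * ∑ t ∈ Finset.range n, (cnt A y - (t + 1)) := by
    intro y
    have hle : cnt A y ≤ n := cnt_le A y
    have key2 : ∀ c m : ℕ, c ≤ m → c ^ 2 = c + 2 * ∑ t ∈ Finset.range m, (c - (t + 1)) := by
      intro c m hcm
      induction c generalizing m with
      | zero => simp
      | succ c ih =>
        obtain ⟨m', rfl⟩ : ∃ m', m = m' + 1 := ⟨m - 1, by omega⟩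
        have h2 := ih m' (by omega)
        rw [Finset.sum_range_succ']
        have h3 : ∀ t ∈ Finset.range m', c + 1 - (t + 1 + 1) = c - (t + 1) := fun t _ => by omega
        rw [Finset.sum_congr rfl h3]
        have h4 : c + 1 - (0 + 1) = c := by omega
        rw [h4]
        nlinarith
    exact key2 _ _ hle
  have h2 : ∑ y ∈ Y A, cnt A y ^ 2 ≤ n ^ 2 + 2 * ∑ t ∈ Finset.range n, (n - (t + 1)) ^ 2 := by
    rw [Finset.sum_congr rfl fun y _ => h1 y, Finset.sum_add_distrib, ← Finset.mul_sum,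
      Finset.sum_comm]
    apply Nat.add_le_add (total A)
    apply Nat.mul_le_mul_left
    apply Finset.sum_le_sum
    intro t ht
    rw [Finset.mem_range] at ht
    exact upper' A hord (t + 1) (by omega)
  have h3 : ∀ m : ℕ, 3 * (m ^ 2 + 2 * ∑ t ∈ Finset.range m, (m - (t + 1)) ^ 2) = 2 * m ^ 3 + m := by
    intro m
    induction m with
    | zero => simp
    | succ m ih =>
      rw [Finset.sum_range_succ']
      have h4 : ∀ t ∈ Finset.range m, (m + 1 - (t + 1 + 1)) ^ 2 = (m - (t + 1)) ^ 2 :=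
        fun t _ => by congr 1; omega
      rw [Finset.sum_congr rfl h4]
      have h5 : m + 1 - (0 + 1) = m := by omega
      rw [h5]
      nlinarith
  have h6 := (N_self A).trans h2
  have h7 : 3 * N A A ≤ 2 * n ^ 3 + n := by
    rw [← h3 n]
    exact Nat.mul_le_mul_left 3 h6
  exact_mod_cast h7

end TH357EN
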