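import Pool.Agent.TH357.EN.E1

set_option autoImplicit false
set_option linter.unusedSectionVars false

noncomputable section

namespace TH357EN

open H61R3AT

variable {G : Type*} [Group G] {κ : Type*}

/-- the tangent inequality -/
lemma tangent (u v : ℝ) (hu : 0 ≤ u) (hv : 0 ≤ v) :
    256 * (v * (2 * v ^ 2 + 1)) ^ 3 * (2 * u ^ 3 + u)
      ≤ (2 * v ^ 3 + 3 * v + (6 * v ^ 2 + 1) * u) ^ 4 := by
  have h : (2 * v ^ 3 + 3 * v + (6 * v ^ 2 + 1) * u) ^ 4
      - 256 * (v * (2 * v ^ 2 + 1)) ^ 3 * (2 * u ^ 3 + u)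
      = (u - v) ^ 2 * (((6 * v ^ 2 + 1) ^ 2 * u - (3 + 2 * v ^ 2) ^ 2 * v) ^ 2
        + 32 * (4 * v ^ 4 - 1) ^ 2 * (u * v)) := by ring
  have h2 : 0 ≤ (u - v) ^ 2 * (((6 * v ^ 2 + 1) ^ 2 * u - (3 + 2 * v ^ 2) ^ 2 * v) ^ 2
        + 32 * (4 * v ^ 4 - 1) ^ 2 * (u * v)) := by positivity
  linarith

variable (S : Finset (κ × G)) (f : κ × G → ℝ)

open Classical in
/-- the law of a random subset with independent inclusions -/
def lam (A : Finset (κ × G)) : ℝ := (∏ p ∈ A, f p) * ∏ p ∈ S \ A, (1 - f p)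

lemma lam_nonneg (h0 : ∀ p, 0 ≤ f p) (h1 : ∀ p, f p ≤ 1) (A : Finset (κ × G)) : 0 ≤ lam S f A := by
  unfold lam
  exact mul_nonneg (Finset.prod_nonneg fun p _ => h0 p)
    (Finset.prod_nonneg fun p _ => sub_nonneg.2 (h1 p))

lemma sum_lam : ∑ A ∈ S.powerset, lam S f A = 1 := by
  classical
  have h := Finset.prod_add f (fun p => 1 - f p) S
  unfold lam
  rw [← h]
  apply Finset.prod_eq_one
  intro p _
  ring

open Classical in
lemma marg (p : κ × G) (hp : p ∈ S) :
    ∑ A ∈ S.powerset, (if p ∈ A then lam S f A else 0) = f p := by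
  have h := Finset.prod_add f (fun q => if q = p then 0 else 1 - f q) S
  have h1 : ∏ q ∈ S, (f q + if q = p then 0 else 1 - f q) = f p := by
    rw [← Finset.mul_prod_erase S _ hp]
    rw [Finset.prod_eq_one]
    · simp
    · intro q hq
      simp [Finset.ne_of_mem_erase hq]
  rw [h1] at h
  rw [h]
  apply Finset.sum_congr rfl
  intro A _
  by_cases hpA : p ∈ A
  · rw [if_pos hpA]
    unfold lam
    congr 1
    · apply Finset.prod_congr
      · congr!
      · intro q hq
        have : q ≠ p := by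
          rintro rfl
          exact (Finset.mem_sdiff.1 hq).2 hpA
        simp [this]
  · rw [if_neg hpA]
    rw [Finset.prod_eq_zero (i := p) (Finset.mem_sdiff.2 ⟨hp, hpA⟩) (by simp)]
    simp

open Classical in
lemma f_eq (hz : ∀ p, p ∉ S → f p = 0) (p : κ × G) :
    f p = ∑ A ∈ S.powerset, lam S f A * (if p ∈ A then 1 else 0) := by
  by_cases hp : p ∈ S
  · rw [← marg S f p hp]
    apply Finset.sum_congr rfl
    intro A _
    split_ifs <;> simp
  · rw [hz p hp]
    symm
    apply Finset.sum_eq_zero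
    intro A hA
    have : p ∉ A := fun h => hp (Finset.mem_powerset.1 hA h)
    simp [this]

lemma mean (hz : ∀ p, p ∉ S → f p = 0) :
    ∑ p ∈ S, f p = ∑ A ∈ S.powerset, lam S f A * (A.card : ℝ) := by
  classical
  rw [Finset.sum_congr rfl fun p _ => f_eq S f hz p, Finset.sum_comm]
  apply Finset.sum_congr rfl
  intro A hA
  rw [← Finset.mul_sum]
  congr 1
  rw [Finset.sum_ite_mem, Finset.inter_eq_right.2 (Finset.mem_powerset.1 hA)]
  simp

lemma zz_eq (hz : ∀ p, p ∉ S → f p = 0) (y : G) :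
    zz S f y = ∑ x ∈ S.powerset ×ˢ S.powerset, lam S f x.1 * lam S f x.2 * (W x.1 x.2 y : ℝ) := by
  classical
  unfold zz
  have h1 : ∀ p ∈ S, f p * f (p.1, p.2 * y)
      = ∑ x ∈ S.powerset ×ˢ S.powerset, lam S f x.1 * lam S f x.2
        * (if p ∈ x.1 ∧ ((p.1, p.2 * y) : κ × G) ∈ x.2 then 1 else 0) := by
    intro p _
    conv_lhs => rw [f_eq S f hz p, f_eq S f hz (p.1, p.2 * y)]
    rw [Finset.sum_mul_sum, ← Finset.sum_product']
    apply Finset.sum_congr rfl
    intro x _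
    by_cases h2 : p ∈ x.1
    · by_cases h3 : ((p.1, p.2 * y) : κ × G) ∈ x.2
      · simp [h2, h3]
      · simp [h3]
    · simp [h2]
  rw [Finset.sum_congr rfl h1, Finset.sum_comm]
  apply Finset.sum_congr rfl
  intro x hx
  rw [← Finset.mul_sum]
  congr 1
  unfold W
  rw [Finset.card_filter]
  push_cast
  have hsub : x.1 ⊆ S := Finset.mem_powerset.1 (Finset.mem_product.1 hx).1
  rw [← Finset.sum_subset hsub]
  · apply Finset.sum_congr rfl
    intro p hp
    simp [hp]
  · intro p _ hp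
    simp [hp]

/-- the energy bound for weights -/
theorem energy_weight
    (hord : ∀ g : G, IsOfFinOrder g → g ≠ 1 → 2 * S.card - 1 ≤ orderOf g) (h0 : ∀ p, 0 ≤ f p)
    (h1 : ∀ p, f p ≤ 1) (hz : ∀ p, p ∉ S → f p = 0) (T : Finset G) :
    3 * ∑ y ∈ T, zz S f y ^ 2 ≤ 2 * (∑ p ∈ S, f p) ^ 3 + ∑ p ∈ S, f p := by
  classical
  set F := ∑ p ∈ S, f p with hF
  have hF0 : 0 ≤ F := Finset.sum_nonneg fun p _ => h0 p
  rcases eq_or_lt_of_le hF0 with hF1 | hF1
  · have hall : ∀ p ∈ S, f p = 0 := by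
      intro p hp
      have := (Finset.sum_eq_zero_iff_of_nonneg (fun q _ => h0 q)).1 hF1.symm p hp
      exact this
    have : ∀ y ∈ T, zz S f y ^ 2 = 0 := by
      intro y _
      have : zz S f y = 0 := by
        unfold zz
        apply Finset.sum_eq_zero
        intro p hp
        rw [hall p hp, zero_mul]
      rw [this]; norm_num
    rw [Finset.sum_congr rfl this, ← hF1]
    simp
  set H : ℝ := F * (2 * F ^ 2 + 1) with hH
  have hHpos : 0 < H := by positivity
  set b : Finset (κ × G) → ℝ := fun A => (2 * F ^ 3 + 3 * F + (6 * F ^ 2 + 1) * A.card) / (4 * H)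
    with hb
  have hbpos : ∀ A, 0 < b A := by
    intro A
    simp only [hb]
    positivity
  have hlam := lam_nonneg S f h0 h1
  have hbsum : ∑ A ∈ S.powerset, lam S f A * b A = 1 := by
    have h2 : ∀ A ∈ S.powerset, lam S f A * b A
        = ((2 * F ^ 3 + 3 * F) * lam S f A + (6 * F ^ 2 + 1) * (lam S f A * A.card)) / (4 * H) := by
      intro A _
      simp only [hb]
      ring
    rw [Finset.sum_congr rfl h2, ← Finset.sum_div, Finset.sum_add_distrib, ← Finset.mul_sum,
      ← Finset.mul_sum, sum_lam, ← mean S f hz, ← hF, div_eq_one_iff_eq (by positivity)]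
    rw [hH]
    ring
  have hbE : ∀ A ∈ S.powerset, 3 * (N A A : ℝ) ≤ b A ^ 4 * H := by
    intro A hAS
    have hcard := Finset.card_le_card (Finset.mem_powerset.1 hAS)
    refine (energy A fun g hg hg1 => le_trans (by omega) (hord g hg hg1)).trans ?_
    have h3 := tangent (A.card : ℝ) F (Nat.cast_nonneg _) hF0
    simp only [hb]
    rw [div_pow, div_mul_eq_mul_div, le_div_iff₀ (by positivity)]
    calc (2 * (A.card : ℝ) ^ 3 + A.card) * (4 * H) ^ 4
        = (256 * H ^ 3 * (2 * (A.card : ℝ) ^ 3 + A.card)) * H := by ring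
      _ ≤ _ := mul_le_mul_of_nonneg_right h3 hHpos.le
  have hN : ∀ A ∈ S.powerset, ∀ B ∈ S.powerset,
      3 * (N A B : ℝ) ≤ b A ^ 2 * b B ^ 2 * H := by
    intro A hAS B hBS
    have h4 := N_sq A B
    have h5 := mul_le_mul (hbE A hAS) (hbE B hBS) (by positivity) (by positivity)
    apply (pow_le_pow_iff_left₀ (by positivity) (by positivity) two_ne_zero).1
    calc (3 * (N A B : ℝ)) ^ 2 = 9 * (N A B : ℝ) ^ 2 := by ring
      _ ≤ 9 * ((N A A : ℝ) * (N B B : ℝ)) := by linarith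
      _ = (3 * (N A A : ℝ)) * (3 * (N B B : ℝ)) := by ring
      _ ≤ _ := h5
      _ = _ := by ring
  have hprod : ∑ x ∈ S.powerset ×ˢ S.powerset, (lam S f x.1 * b x.1) * (lam S f x.2 * b x.2)
      = 1 := by
    rw [Finset.sum_product]
    have h6 := Finset.sum_mul_sum S.powerset S.powerset (fun A => lam S f A * b A)
      (fun A => lam S f A * b A)
    simp only
    rw [← h6, hbsum, one_mul]
  -- Cauchy-Schwarz at each y
  have hCS : ∀ y ∈ T, zz S f y ^ 2 ≤ ∑ x ∈ S.powerset ×ˢ S.powerset,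
      lam S f x.1 * lam S f x.2 / (b x.1 * b x.2) * (W x.1 x.2 y : ℝ) ^ 2 := by
    intro y _
    rw [zz_eq S f hz y]
    have h6 := Finset.sum_sq_le_sum_mul_sum_of_sq_le_mul (S.powerset ×ˢ S.powerset)
      (r := fun x => lam S f x.1 * lam S f x.2 * (W x.1 x.2 y : ℝ))
      (f := fun x => (lam S f x.1 * b x.1) * (lam S f x.2 * b x.2))
      (g := fun x => lam S f x.1 * lam S f x.2 / (b x.1 * b x.2) * (W x.1 x.2 y : ℝ) ^ 2)
      (fun x _ => mul_nonneg (mul_nonneg (hlam _) (hbpos _).le) (mul_nonneg (hlam _) (hbpos _).le))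
      (fun x _ => mul_nonneg (div_nonneg (mul_nonneg (hlam _) (hlam _))
        (mul_pos (hbpos _) (hbpos _)).le) (sq_nonneg _))
      (fun x _ => le_of_eq (by
        have h7 := (hbpos x.1).ne'
        have h8 := (hbpos x.2).ne'
        field_simp))
    refine h6.trans ?_
    rw [hprod, one_mul]
  calc 3 * ∑ y ∈ T, zz S f y ^ 2
      ≤ 3 * ∑ y ∈ T, ∑ x ∈ S.powerset ×ˢ S.powerset,
        lam S f x.1 * lam S f x.2 / (b x.1 * b x.2) * (W x.1 x.2 y : ℝ) ^ 2 :=
        mul_le_mul_of_nonneg_left (Finset.sum_le_sum hCS) (by norm_num)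
    _ = ∑ x ∈ S.powerset ×ˢ S.powerset,
        lam S f x.1 * lam S f x.2 / (b x.1 * b x.2) * (3 * ∑ y ∈ T, (W x.1 x.2 y : ℝ) ^ 2) := by
        rw [Finset.sum_comm, Finset.mul_sum]
        apply Finset.sum_congr rfl
        intro x _
        rw [← Finset.mul_sum]
        ring
    _ ≤ ∑ x ∈ S.powerset ×ˢ S.powerset,
        lam S f x.1 * lam S f x.2 / (b x.1 * b x.2) * (b x.1 ^ 2 * b x.2 ^ 2 * H) := by
        apply Finset.sum_le_sum
        intro x hx
        rw [Finset.mem_product] at hx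
        apply mul_le_mul_of_nonneg_left _ (div_nonneg (mul_nonneg (hlam _) (hlam _))
          (mul_pos (hbpos _) (hbpos _)).le)
        refine le_trans ?_ (hN x.1 hx.1 x.2 hx.2)
        apply mul_le_mul_of_nonneg_left _ (by norm_num)
        have h9 := sum_W_sq T x.1 x.2
        calc ∑ y ∈ T, (W x.1 x.2 y : ℝ) ^ 2 = ((∑ y ∈ T, W x.1 x.2 y ^ 2 : ℕ) : ℝ) := by
              push_cast; rfl
          _ ≤ _ := by exact_mod_cast h9
    _ = ∑ x ∈ S.powerset ×ˢ S.powerset, H * ((lam S f x.1 * b x.1) * (lam S f x.2 * b x.2)) := by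
        apply Finset.sum_congr rfl
        intro x _
        have h7 := (hbpos x.1).ne'
        have h8 := (hbpos x.2).ne'
        field_simp
    _ = H := by
        rw [← Finset.mul_sum, hprod, mul_one]
    _ = 2 * F ^ 3 + F := by rw [hH]; ring

end TH357EN
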