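import Pool.Agent.TH357.EN.E2

set_option autoImplicit false
set_option linter.unusedSectionVars false

open scoped InnerProductSpace ENNReal

noncomputable section

namespace TH357EN

open H61R3AT

variable {G : Type*} [Group G] {κ : Type*} [DecidableEq κ]

variable (S : Finset (κ × G)) (b : κ × G → ℝ)

lemma QQ_le_zz (hb : ∀ p, 0 ≤ b p) (u : G → ℝ) (hu : ∀ y, 0 ≤ u y) :
    QQ S b u ≤ ∑ y ∈ Y S, zz S b y * u y := by
  classical
  unfold QQ zz
  have h1 : ∑ y ∈ Y S, (∑ p ∈ S, b p * b (p.1, p.2 * y)) * u y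
      = ∑ p ∈ S, ∑ y ∈ Y S, b p * b (p.1, p.2 * y) * u y := by
    rw [Finset.sum_comm]
    apply Finset.sum_congr rfl
    intro y _
    rw [Finset.sum_mul]
  rw [h1]
  apply Finset.sum_le_sum
  intro p hp
  rw [← Finset.sum_filter]
  have hinj : Set.InjOn (fun q : κ × G => p.2⁻¹ * q.2) (S.filter fun q => p.1 = q.1) := by
    intro q hq q' hq' h
    simp only [Finset.coe_filter, Set.mem_ofPred_eq] at hq hq'
    simp only [mul_right_inj] at h
    exact Prod.ext (hq.2.symm.trans hq'.2) h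
  have h2 : ∀ q ∈ S.filter (fun q => p.1 = q.1), b p * b q * u (p.2⁻¹ * q.2)
      = b p * b (p.1, p.2 * (p.2⁻¹ * q.2)) * u (p.2⁻¹ * q.2) := by
    intro q hq
    rw [mul_inv_cancel_left, (Finset.mem_filter.1 hq).2]
  rw [Finset.sum_congr rfl h2]
  rw [← Finset.sum_image (f := fun y => b p * b (p.1, p.2 * y) * u y) hinj]
  apply Finset.sum_le_sum_of_subset_of_nonneg
  · intro y hy
    obtain ⟨q, hq, rfl⟩ := Finset.mem_image.1 hy
    exact mem_Y S p q hp (Finset.mem_filter.1 hq).1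
  · intro y _ _
    exact mul_nonneg (mul_nonneg (hb _) (hb _)) (hu _)

lemma zz_nonneg (hb : ∀ p, 0 ≤ b p) (y : G) : 0 ≤ zz S b y :=
  Finset.sum_nonneg fun p _ => mul_nonneg (hb _) (hb _)

/-- the energy of a weight with maximum at most `M` -/
lemma QQ_energy (hord : ∀ g : G, IsOfFinOrder g → g ≠ 1 → 2 * S.card - 1 ≤ orderOf g)
    (hb : ∀ p, 0 ≤ b p) (hz : ∀ p, p ∉ S → b p = 0) (M : ℝ) (hM : 0 < M) (hbM : ∀ p, b p ≤ M) :
    3 * QQ S b (zz S b)
      ≤ M ^ 4 * (2 * ((∑ p ∈ S, b p) / M) ^ 3 + (∑ p ∈ S, b p) / M) := by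
  have h1 := QQ_le_zz S b hb (zz S b) (fun y => zz_nonneg S b hb y)
  have h2 := energy_weight S (fun p => b p / M) hord (fun p => div_nonneg (hb p) hM.le)
    (fun p => (div_le_one hM).2 (hbM p)) (fun p hp => by simp [hz p hp]) (Y S)
  have h3 : ∀ y, zz S b y = M ^ 2 * zz S (fun p => b p / M) y := by
    intro y
    unfold zz
    rw [Finset.mul_sum]
    apply Finset.sum_congr rfl
    intro p _
    field_simp
  have h4 : ∑ y ∈ Y S, zz S b y * zz S b y
      = M ^ 4 * ∑ y ∈ Y S, zz S (fun p => b p / M) y ^ 2 := by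
    rw [Finset.mul_sum]
    apply Finset.sum_congr rfl
    intro y _
    rw [h3 y]
    ring
  have h5 : ∑ p ∈ S, b p / M = (∑ p ∈ S, b p) / M := by rw [Finset.sum_div]
  rw [h5] at h2
  calc 3 * QQ S b (zz S b) ≤ 3 * ∑ y ∈ Y S, zz S b y * zz S b y := by linarith
    _ = M ^ 4 * (3 * ∑ y ∈ Y S, zz S (fun p => b p / M) y ^ 2) := by rw [h4]; ring
    _ ≤ _ := mul_le_mul_of_nonneg_left h2 (by positivity)

open Classical in
lemma QQ_delta (p₀ : κ × G) (hp₀ : p₀ ∈ S) (hb : ∀ p, 0 ≤ b p) :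
    QQ S b (zz S fun p => if p = p₀ then 1 else 0) ≤ ∑ p ∈ S, b p ^ 2 := by
  unfold QQ
  apply Finset.sum_le_sum
  intro p hp
  have h1 : ∀ q ∈ S, (if p.1 = q.1 then b p * b q
      * zz S (fun p => if p = p₀ then 1 else 0) (p.2⁻¹ * q.2) else 0)
      ≤ if p = q then b p * b q else 0 := by
    intro q _
    by_cases hpq : p.1 = q.1
    · rw [if_pos hpq]
      have h2 : zz S (fun p => if p = p₀ then (1 : ℝ) else 0) (p.2⁻¹ * q.2)
          = if p.2⁻¹ * q.2 = 1 then 1 else 0 := by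
        unfold zz
        rw [Finset.sum_eq_single p₀]
        · by_cases h3 : p.2⁻¹ * q.2 = 1
          · simp [h3]
          · have h4 : ¬ ((p₀.1, p₀.2 * (p.2⁻¹ * q.2)) : κ × G) = p₀ := by
              intro h
              have := congrArg Prod.snd h
              simp only at this
              exact h3 (mul_eq_left.1 this)
            simp [h3, h4]
        · intro r _ hr
          simp [hr]
        · intro h; exact absurd hp₀ h
      rw [h2]
      by_cases h3 : p.2⁻¹ * q.2 = 1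
      · have h4 : p = q := Prod.ext hpq (inv_mul_eq_one.1 h3)
        simp [h4]
      · have h4 : p ≠ q := fun h => h3 (by rw [h]; simp)
        simp [h3, h4]
    · have h4 : p ≠ q := fun h => hpq (by rw [h])
      simp [hpq, h4]
  refine (Finset.sum_le_sum h1).trans (le_of_eq ?_)
  rw [Finset.sum_ite_eq S p]
  simp [hp, pow_two]

open Classical in
/-- the rank of a column -/
theorem column_energy {m : ℕ} (S : Finset (Fin m × G)) (c : Fin m × G → ℂ)
    (hord : ∀ g : G, IsOfFinOrder g → g ≠ 1 → 2 * S.card - 1 ≤ orderOf g)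
    (hc : ∀ p, p ∈ S ↔ c p ≠ 0) (p₀ : Fin m × G) (hp₀ : c p₀ ≠ 0)
    (hmax : ∀ p, ‖c p‖ ≤ ‖c p₀‖) (L : ℝ) (hL : L = (∑ p ∈ S, ‖c p‖) / ‖c p₀‖) :
    3 ≤ (∑ k : Fin m, Metric.infDist (sd (k, 1) : lp (fun _ : Fin m × G => ℂ) 2) (Kc S c) ^ 2) ^ 3
      * (2 * L ^ 3 + L) := by
  set r := ∑ k : Fin m, Metric.infDist (sd (k, 1) : lp (fun _ : Fin m × G => ℂ) 2) (Kc S c) ^ 2
    with hr
  have hr0 : 0 ≤ r := Finset.sum_nonneg fun _ _ => sq_nonneg _
  have hb : ∀ p : Fin m × G, 0 ≤ ‖c p‖ := fun p => norm_nonneg _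
  have hb0 : ∀ p, p ∉ S → ‖c p‖ = 0 := by
    intro p hp
    rw [hc] at hp
    push Not at hp
    rw [hp, norm_zero]
  have hmem : p₀ ∈ S := (hc p₀).2 hp₀
  set M := ‖c p₀‖ with hM
  have hMpos : 0 < M := norm_pos_iff.2 hp₀
  set X := ∑ p ∈ S, ‖c p‖ ^ 2 with hX
  have hX0 : 0 ≤ X := Finset.sum_nonneg fun _ _ => sq_nonneg _
  -- first inequality
  have h1 : M ^ 2 ≤ r * X := by
    have h2 := basic S c (fun p => if p = p₀ then 1 else 0) (fun p => by split_ifs <;> norm_num)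
      (fun p hp => by
        have : p ≠ p₀ := fun h => hp (h ▸ hmem)
        simp [this])
    have h3 : (∑ p ∈ S, (if p = p₀ then (1 : ℝ) else 0) * ‖c p‖) = M := by
      rw [Finset.sum_eq_single p₀]
      · simp [hM]
      · intro q _ hq; simp [hq]
      · intro h; exact absurd hmem h
    rw [h3, ← hr] at h2
    exact h2.trans (mul_le_mul_of_nonneg_left (QQ_delta S (fun p => ‖c p‖) p₀ hmem hb) hr0)
  -- second inequality
  set E := QQ S (fun p => ‖c p‖) (zz S fun p => ‖c p‖) with hE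
  have h2 : X ^ 2 ≤ r * E := by
    have h3 := basic S c (fun p => ‖c p‖) hb hb0
    have h4 : (∑ p ∈ S, ‖c p‖ * ‖c p‖) = X :=
      Finset.sum_congr rfl fun p _ => (pow_two _).symm
    rw [h4, ← hr] at h3
    exact h3
  have h3 := QQ_energy S (fun p => ‖c p‖) hord hb hb0 M hMpos hmax
  rw [← hL, ← hE] at h3
  have h4 : M ^ 4 ≤ r ^ 3 * E := by
    calc M ^ 4 = (M ^ 2) ^ 2 := by ring
      _ ≤ (r * X) ^ 2 := pow_le_pow_left₀ (by positivity) h1 2
      _ = r ^ 2 * X ^ 2 := by ring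
      _ ≤ r ^ 2 * (r * E) := mul_le_mul_of_nonneg_left h2 (by positivity)
      _ = r ^ 3 * E := by ring
  have h5 : M ^ 4 * 3 ≤ M ^ 4 * (r ^ 3 * (2 * L ^ 3 + L)) := by
    calc M ^ 4 * 3 ≤ r ^ 3 * (3 * E) := by linarith
      _ ≤ r ^ 3 * (M ^ 4 * (2 * L ^ 3 + L)) := mul_le_mul_of_nonneg_left h3 (by positivity)
      _ = _ := by ring
  exact le_of_mul_le_mul_left h5 (by positivity)

end TH357EN
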