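import Pool.Agent.TH357.EN.E2

set_option autoImplicit false
set_option linter.unusedSectionVars false
set_option linter.unusedVariables false

noncomputable section

namespace TH357EN

open H61R3AT

variable {G : Type*} [Group G]

/-- the energy bound for weights on the group -/
theorem energy_G (htf : ∀ g : G, IsOfFinOrder g → g = 1) (S : Finset G) (f : G → ℝ)
    (h0 : ∀ g, 0 ≤ f g) (h1 : ∀ g, f g ≤ 1) (hz : ∀ g, g ∉ S → f g = 0) (T : Finset G) :
    3 * ∑ y ∈ T, (∑ x ∈ S, f x * f (x * y)) ^ 2 ≤ 2 * (∑ g ∈ S, f g) ^ 3 + ∑ g ∈ S, f g := by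
  classical
  set S' : Finset (Unit × G) := S.map ⟨fun g => ((), g), fun a b h => by simpa using h⟩ with hS'
  have h := energy_weight S' (fun p => f p.2) (fun g hg hg1 => absurd (htf g hg) hg1)
    (fun p => h0 _) (fun p => h1 _) (fun p hp => hz _ (fun hm => hp (by
      rw [hS', Finset.mem_map]
      exact ⟨p.2, hm, rfl⟩))) T
  unfold zz at h
  rw [hS'] at h
  simp only [Finset.sum_map] at h
  exact h

section conv

variable (S : Finset G) (b : G → ℝ)

/-- the two autocorrelations -/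
def Wr (y : G) : ℝ := ∑ x ∈ S, b x * b (x * y)
def Wl (y : G) : ℝ := ∑ x ∈ S, b x * b (y * x)

/-- the convolution square -/
def cv (g : G) : ℝ := ∑ x ∈ S, b x * b (x⁻¹ * g)

lemma sum_Wr (htf : ∀ g : G, IsOfFinOrder g → g = 1) (h0 : ∀ g, 0 ≤ b g)
    (hz : ∀ g, g ∉ S → b g = 0) (m : ℝ) (hm : 0 < m) (hbm : ∀ g, b g ≤ m) (T : Finset G) :
    3 * ∑ y ∈ T, Wr S b y ^ 2 ≤ 2 * m * (∑ g ∈ S, b g) ^ 3 + m ^ 3 * ∑ g ∈ S, b g := by
  have h := energy_G htf S (fun g => b g / m) (fun g => div_nonneg (h0 g) hm.le)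
    (fun g => (div_le_one hm).2 (hbm g)) (fun g hg => by simp [hz g hg]) T
  have h3 : ∀ y, Wr S b y = m ^ 2 * ∑ x ∈ S, b x / m * (b (x * y) / m) := by
    intro y
    unfold Wr
    rw [Finset.mul_sum]
    apply Finset.sum_congr rfl
    intro p _
    field_simp
  have h4 : ∑ y ∈ T, Wr S b y ^ 2 = m ^ 4 * ∑ y ∈ T, (∑ x ∈ S, b x / m * (b (x * y) / m)) ^ 2 := by
    rw [Finset.mul_sum]
    apply Finset.sum_congr rfl
    intro y _
    rw [h3 y]
    ring
  have h5 : ∑ p ∈ S, b p / m = (∑ p ∈ S, b p) / m := by rw [Finset.sum_div]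
  rw [h5] at h
  calc 3 * ∑ y ∈ T, Wr S b y ^ 2
      = m ^ 4 * (3 * ∑ y ∈ T, (∑ x ∈ S, b x / m * (b (x * y) / m)) ^ 2) := by rw [h4]; ring
    _ ≤ m ^ 4 * (2 * ((∑ p ∈ S, b p) / m) ^ 3 + (∑ p ∈ S, b p) / m) :=
        mul_le_mul_of_nonneg_left h (by positivity)
    _ = _ := by field_simp

open Classical in
lemma sum_Wl (htf : ∀ g : G, IsOfFinOrder g → g = 1) (h0 : ∀ g, 0 ≤ b g)
    (hz : ∀ g, g ∉ S → b g = 0) (m : ℝ) (hm : 0 < m) (hbm : ∀ g, b g ≤ m) (T : Finset G) :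
    3 * ∑ y ∈ T, Wl S b y ^ 2 ≤ 2 * m * (∑ g ∈ S, b g) ^ 3 + m ^ 3 * ∑ g ∈ S, b g := by
  have hinj : Function.Injective (fun g : G => g⁻¹) := inv_injective
  have h := sum_Wr (S.image fun g => g⁻¹) (fun g => b g⁻¹) htf (fun g => h0 _)
    (fun g hg => hz _ (fun hm' => hg (Finset.mem_image.2 ⟨g⁻¹, hm', inv_inv g⟩))) m hm
    (fun g => hbm _) (T.image fun g => g⁻¹)
  rw [Finset.sum_image fun x _ y _ hxy => hinj hxy,
    Finset.sum_image fun x _ y _ hxy => hinj hxy] at h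
  have h2 : ∀ y ∈ T, Wr (S.image fun g => g⁻¹) (fun g => b g⁻¹) y⁻¹ = Wl S b y := by
    intro y _
    unfold Wr Wl
    rw [Finset.sum_image fun x _ y _ hxy => hinj hxy]
    apply Finset.sum_congr rfl
    intro x _
    show b (x⁻¹)⁻¹ * b (x⁻¹ * y⁻¹)⁻¹ = b x * b (y * x)
    rw [mul_inv_rev, inv_inv, inv_inv]
  rw [Finset.sum_congr rfl fun y hy => by rw [h2 y hy]] at h
  simpa using h

open Classical in
/-- the square norm of the convolution square -/
lemma sum_cv (htf : ∀ g : G, IsOfFinOrder g → g = 1) (h0 : ∀ g, 0 ≤ b g)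
    (hz : ∀ g, g ∉ S → b g = 0) (m : ℝ) (hm : 0 < m) (hbm : ∀ g, b g ≤ m) :
    3 * ∑ g ∈ S, cv S b g ^ 2 ≤ 2 * m * (∑ g ∈ S, b g) ^ 3 + m ^ 3 * ∑ g ∈ S, b g := by
  set YY : Finset G := (S ×ˢ S).image fun p => p.1⁻¹ * p.2 with hYY
  have h1 : ∑ g ∈ S, cv S b g ^ 2 ≤ ∑ x' ∈ S, ∑ x ∈ S, b x' * b x * Wl S b (x'⁻¹ * x) := by
    have h2 : ∀ g ∈ S, cv S b g ^ 2 = ∑ x' ∈ S, ∑ x ∈ S, b x' * b x * (b (x⁻¹ * g) * b (x'⁻¹ * g)) := by
      intro g _
      unfold cv
      rw [pow_two, Finset.sum_mul_sum]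
      apply Finset.sum_congr rfl
      intro x' _
      apply Finset.sum_congr rfl
      intro x _
      ring
    rw [Finset.sum_congr rfl h2, Finset.sum_comm]
    apply Finset.sum_le_sum
    intro x' _
    rw [Finset.sum_comm]
    apply Finset.sum_le_sum
    intro x _
    rw [← Finset.mul_sum]
    apply mul_le_mul_of_nonneg_left _ (mul_nonneg (h0 _) (h0 _))
    -- substitute g = x u
    unfold Wl
    have h3 : ∑ g ∈ S, b (x⁻¹ * g) * b (x'⁻¹ * g)
        = ∑ u ∈ S.image (fun g => x⁻¹ * g), b u * b (x'⁻¹ * x * u) := by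
      rw [Finset.sum_image fun a _ c _ hac => mul_left_cancel hac]
      apply Finset.sum_congr rfl
      intro g _
      congr 2
      group
    rw [h3]
    have h4 : ∑ u ∈ S.image (fun g => x⁻¹ * g), b u * b (x'⁻¹ * x * u)
        = ∑ u ∈ (S.image (fun g => x⁻¹ * g)).filter (· ∈ S), b u * b (x'⁻¹ * x * u) := by
      rw [Finset.sum_filter]
      apply Finset.sum_congr rfl
      intro u _
      split_ifs with hu
      · rfl
      · rw [hz u hu, zero_mul]
    rw [h4]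
    apply Finset.sum_le_sum_of_subset_of_nonneg
    · intro u hu
      exact (Finset.mem_filter.1 hu).2
    · intro u _ _
      exact mul_nonneg (h0 _) (h0 _)
  have hWl : ∀ y, 0 ≤ Wl S b y := fun y => Finset.sum_nonneg fun x _ => mul_nonneg (h0 _) (h0 _)
  have h2 : ∑ x' ∈ S, ∑ x ∈ S, b x' * b x * Wl S b (x'⁻¹ * x)
      ≤ ∑ y ∈ YY, Wr S b y * Wl S b y := by
    have h3 : ∑ y ∈ YY, Wr S b y * Wl S b y
        = ∑ x' ∈ S, ∑ y ∈ YY, b x' * b (x' * y) * Wl S b y := by
      rw [Finset.sum_comm]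
      apply Finset.sum_congr rfl
      intro y _
      unfold Wr
      rw [Finset.sum_mul]
    rw [h3]
    apply Finset.sum_le_sum
    intro x' hx'
    have h4 : ∑ x ∈ S, b x' * b x * Wl S b (x'⁻¹ * x)
        = ∑ y ∈ S.image (fun x => x'⁻¹ * x), b x' * b (x' * y) * Wl S b y := by
      rw [Finset.sum_image fun a _ c _ hac => mul_left_cancel hac]
      apply Finset.sum_congr rfl
      intro x _
      rw [mul_inv_cancel_left]
    rw [h4]
    apply Finset.sum_le_sum_of_subset_of_nonneg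
    · intro y hy
      obtain ⟨x, hx, rfl⟩ := Finset.mem_image.1 hy
      exact Finset.mem_image.2 ⟨(x', x), Finset.mem_product.2 ⟨hx', hx⟩, rfl⟩
    · intro y _ _
      exact mul_nonneg (mul_nonneg (h0 _) (h0 _)) (hWl _)
  have h3 : ∑ y ∈ YY, Wr S b y * Wl S b y
      ≤ (∑ y ∈ YY, Wr S b y ^ 2) / 2 + (∑ y ∈ YY, Wl S b y ^ 2) / 2 := by
    rw [← add_div, ← Finset.sum_add_distrib, Finset.sum_div]
    apply Finset.sum_le_sum
    intro y _
    nlinarith [sq_nonneg (Wr S b y - Wl S b y)]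
  have h4 := sum_Wr S b htf h0 hz m hm hbm YY
  have h5 := sum_Wl S b htf h0 hz m hm hbm YY
  linarith

/-- a weight and its translate -/
lemma Wl_le (htf : ∀ g : G, IsOfFinOrder g → g = 1) (h0 : ∀ g, 0 ≤ b g)
    (hz : ∀ g, g ∉ S → b g = 0) (g₀ : G) (hbm : ∀ g, b g ≤ b g₀) (y : G) (hy : y ≠ 1) :
    Wl S b y ≤ b g₀ * (∑ g ∈ S, b g - b g₀) := by
  classical
  have hni : ¬ IsOfFinOrder y := fun h => hy (htf y h)
  have hinj : Function.Injective (fun k : ℕ => y ^ k * g₀) := by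
    intro k l hkl
    exact (injective_pow_iff_not_isOfFinOrder.2 hni) (mul_right_cancel hkl)
  obtain ⟨N, hN⟩ : ∃ N : ℕ, y ^ N * g₀ ∉ S := by
    by_contra hcon
    push Not at hcon
    have := Set.infinite_range_of_injective hinj
    exact this (S.finite_toSet.subset (by rintro _ ⟨k, rfl⟩; exact hcon k))
  -- the total decrease along the orbit
  have h1 : b g₀ ≤ ∑ k ∈ Finset.range N, max (b (y ^ k * g₀) - b (y ^ (k + 1) * g₀)) 0 := by
    have h2 : ∑ k ∈ Finset.range N, (b (y ^ k * g₀) - b (y ^ (k + 1) * g₀)) = b g₀ := by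
      rw [Finset.sum_range_sub' (fun k => b (y ^ k * g₀))]
      rw [hz _ hN]
      simp
    rw [← h2]
    exact Finset.sum_le_sum fun k _ => le_max_left _ _
  have h2 : ∑ k ∈ Finset.range N, max (b (y ^ k * g₀) - b (y ^ (k + 1) * g₀)) 0
      ≤ ∑ g ∈ S, max (b g - b (y * g)) 0 := by
    have h3 : ∑ k ∈ Finset.range N, max (b (y ^ k * g₀) - b (y ^ (k + 1) * g₀)) 0
        = ∑ g ∈ (Finset.range N).image (fun k => y ^ k * g₀), max (b g - b (y * g)) 0 := by
      rw [Finset.sum_image fun a _ c _ hac => hinj hac]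
      apply Finset.sum_congr rfl
      intro k _
      rw [pow_succ', mul_assoc]
    rw [h3]
    have h4 : ∑ g ∈ (Finset.range N).image (fun k => y ^ k * g₀), max (b g - b (y * g)) 0
        = ∑ g ∈ ((Finset.range N).image (fun k => y ^ k * g₀)).filter (· ∈ S),
          max (b g - b (y * g)) 0 := by
      rw [Finset.sum_filter]
      apply Finset.sum_congr rfl
      intro g _
      split_ifs with hg
      · rfl
      · rw [hz g hg]
        apply max_eq_right
        linarith [h0 (y * g)]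
    rw [h4]
    apply Finset.sum_le_sum_of_subset_of_nonneg
    · intro g hg
      exact (Finset.mem_filter.1 hg).2
    · intro g _ _
      exact le_max_right _ _
  have h3 : ∀ g ∈ S, b g * b (y * g) ≤ b g₀ * b g - b g₀ * max (b g - b (y * g)) 0 := by
    intro g _
    have h4 := h0 g
    have h5 := h0 (y * g)
    have h6 := hbm g
    have h7 := hbm (y * g)
    rcases le_total (b g - b (y * g)) 0 with h8 | h8
    · rw [max_eq_right h8]
      nlinarith
    · rw [max_eq_left h8]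
      nlinarith
  calc Wl S b y ≤ ∑ g ∈ S, (b g₀ * b g - b g₀ * max (b g - b (y * g)) 0) := Finset.sum_le_sum h3
    _ = b g₀ * (∑ g ∈ S, b g - ∑ g ∈ S, max (b g - b (y * g)) 0) := by
        rw [Finset.sum_sub_distrib, ← Finset.mul_sum, ← Finset.mul_sum]
        ring
    _ ≤ _ := mul_le_mul_of_nonneg_left (by linarith) (h0 _)

end conv

end TH357EN
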