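import Pool.Agent.TH357.EN.E4

set_option autoImplicit false
set_option linter.unusedSectionVars false
set_option linter.unusedVariables false

noncomputable section

namespace TH357EN

variable {G : Type*} [Group G]

/-- the inequalities for a weight which is at most its convolution square -/
theorem core (htf : ∀ g : G, IsOfFinOrder g → g = 1) (S : Finset G) (b : G → ℝ)
    (h0 : ∀ g, 0 ≤ b g) (hz : ∀ g, g ∉ S → b g = 0) (g₀ : G) (hbm : ∀ g, b g ≤ b g₀)
    (hm : 0 < b g₀) (hcv : ∀ g, b g ≤ cv S b g) (M m Q : ℝ) (hMdef : M = ∑ g ∈ S, b g)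
    (hmdef : m = b g₀) (hQ : Q = ∑ g ∈ S, b g ^ 2) :
    m ≤ Q ∧ 3 ≤ 2 * M ^ 3 + m ^ 2 * M ∧
      Q ≤ M * (m * (M - m)) + b 1 * (Q - m * (M - m)) := by
  classical
  have hg₀ : g₀ ∈ S := by
    by_contra h
    rw [hz g₀ h] at hm
    exact lt_irrefl _ hm
  -- a
  have ha : m ≤ Q := by
    rw [hmdef]
    refine (hcv g₀).trans ?_
    unfold cv
    have h3 : ∀ x ∈ S, b x * b (x⁻¹ * g₀) ≤ b x ^ 2 / 2 + b (x⁻¹ * g₀) ^ 2 / 2 := by
      intro x _
      nlinarith [sq_nonneg (b x - b (x⁻¹ * g₀))]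
    refine (Finset.sum_le_sum h3).trans ?_
    rw [Finset.sum_add_distrib, ← Finset.sum_div, ← Finset.sum_div]
    have hinj : Function.Injective (fun x : G => x⁻¹ * g₀) := by
      intro x y hxy
      exact inv_injective (mul_right_cancel hxy)
    have h4 : ∑ x ∈ S, b (x⁻¹ * g₀) ^ 2 ≤ Q := by
      have h5 : ∑ x ∈ S, b (x⁻¹ * g₀) ^ 2 = ∑ y ∈ S.image (fun x => x⁻¹ * g₀), b y ^ 2 := by
        rw [Finset.sum_image fun a _ c _ hac => hinj hac]
      have h6 : ∑ y ∈ S.image (fun x => x⁻¹ * g₀), b y ^ 2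
          = ∑ y ∈ (S.image (fun x => x⁻¹ * g₀)).filter (· ∈ S), b y ^ 2 := by
        rw [Finset.sum_filter]
        apply Finset.sum_congr rfl
        intro g _
        split_ifs with hg
        · rfl
        · rw [hz g hg]; norm_num
      rw [h5, h6, hQ]
      apply Finset.sum_le_sum_of_subset_of_nonneg
      · intro g hg
        exact (Finset.mem_filter.1 hg).2
      · intro g _ _
        exact sq_nonneg _
    rw [← hQ]
    linarith
  have hm' : 0 < m := by rw [hmdef]; exact hm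
  -- b
  have hb3 : 3 ≤ 2 * M ^ 3 + m ^ 2 * M := by
    have h3 := sum_cv S b htf h0 hz m hm' (fun g => by rw [hmdef]; exact hbm g)
    have h4 : Q ≤ ∑ g ∈ S, cv S b g ^ 2 := by
      rw [hQ]
      exact Finset.sum_le_sum fun g _ => pow_le_pow_left₀ (h0 g) (hcv g) 2
    rw [← hMdef] at h3
    have h5 : m * 3 ≤ m * (2 * M ^ 3 + m ^ 2 * M) := by
      calc m * 3 ≤ 3 * ∑ g ∈ S, cv S b g ^ 2 := by linarith
        _ ≤ _ := h3
        _ = _ := by ring
    exact le_of_mul_le_mul_left h5 hm'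
  refine ⟨ha, hb3, ?_⟩
  -- c
  have h3 : Q ≤ ∑ x ∈ S, b x * Wl S b x⁻¹ := by
    have h4 : ∑ x ∈ S, b x * Wl S b x⁻¹ = ∑ g ∈ S, b g * cv S b g := by
      unfold Wl cv
      simp only [Finset.mul_sum]
      rw [Finset.sum_comm]
      apply Finset.sum_congr rfl
      intro g _
      apply Finset.sum_congr rfl
      intro x _
      ring
    rw [h4, hQ]
    apply Finset.sum_le_sum
    intro g _
    rw [pow_two]
    exact mul_le_mul_of_nonneg_left (hcv g) (h0 g)
  have h4 : ∀ x ∈ S, b x * Wl S b x⁻¹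
      ≤ b x * (m * (M - m)) + (if x = 1 then b 1 * (Q - m * (M - m)) else 0) := by
    intro x _
    by_cases hx : x = 1
    · subst hx
      rw [if_pos rfl]
      have h5 : Wl S b (1 : G)⁻¹ = Q := by
        unfold Wl
        rw [hQ]
        apply Finset.sum_congr rfl
        intro g _
        rw [inv_one, one_mul, pow_two]
      rw [h5]
      linarith
    · rw [if_neg hx, add_zero, hmdef, hMdef]
      exact mul_le_mul_of_nonneg_left
        (Wl_le S b htf h0 hz g₀ hbm x⁻¹ (fun h => hx (inv_eq_one.1 h))) (h0 x)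
  refine h3.trans ((Finset.sum_le_sum h4).trans ?_)
  rw [Finset.sum_add_distrib, ← Finset.sum_mul, Finset.sum_ite_eq' S (1 : G), ← hMdef]
  split_ifs with h1S
  · exact le_rfl
  · rw [hz 1 h1S]
    linarith

/-- the numerical conclusion for weights of total mass at most `1.12` -/
lemma numeric (M m Q β : ℝ) (hM : M ≤ 28 / 25) (hm : 0 < m) (hmM : m ≤ M) (hβ0 : 0 ≤ β)
    (hβ : β = m ∨ β ≤ M - m) (ha : m ≤ Q) (hb : 3 ≤ 2 * M ^ 3 + m ^ 2 * M)
    (hc : Q ≤ M * (m * (M - m)) + β * (Q - m * (M - m))) :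
    M - β < 7 / 50 := by
  have hM0 : 0 < M := lt_of_lt_of_le hm hmM
  have hm1 : 103 / 250 < m := by
    by_contra h
    push Not at h
    have h3 : M ^ 3 ≤ (28 / 25) ^ 3 := pow_le_pow_left₀ hM0.le hM 3
    have h4 : m ^ 2 * M ≤ (103 / 250) ^ 2 * (28 / 25) :=
      mul_le_mul (pow_le_pow_left₀ hm.le h 2) hM hM0.le (by norm_num)
    norm_num at h3 h4
    linarith
  rcases le_or_gt 1 β with h1 | h1
  · linarith
  have h3 : m * (1 - β) ≤ m * ((M - m) * (M - β)) := by nlinarith
  have h4 : 1 - β ≤ (M - m) * (M - β) := le_of_mul_le_mul_left h3 hm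
  rcases hβ with h | h
  · subst h
    have h5 : (M - β) ^ 2 - (M - β) + 3 / 25 ≥ 0 := by nlinarith
    have h6 : M - β < 71 / 100 := by linarith
    by_contra hcon
    push Not at hcon
    nlinarith
  · exfalso
    have h5 : 0 ≤ M - m := by linarith
    have h6 : M - m < 71 / 100 := by linarith
    have h7 : 1 ≤ β * (1 - (M - m)) + (M - m) * M := by nlinarith
    have h8 : β * (1 - (M - m)) ≤ (M - m) * (1 - (M - m)) :=
      mul_le_mul_of_nonneg_right h (by linarith)
    have h9 : (M - m) * (1 + m) < 1 := by nlinarith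
    nlinarith

end TH357EN
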