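import Pool.Agent.TH357.EN.E6

set_option autoImplicit false
set_option linter.unusedSectionVars false
set_option linter.unusedVariables false
set_option linter.unusedSimpArgs false

noncomputable section

namespace TH357EN

open MonoidAlgebra

variable {G : Type*} [Group G] {𝔸 : Type*} [NormedRing 𝔸]

/-- the `l1` norm -/
def l1 (x : MonoidAlgebra 𝔸 G) : ℝ := ∑ g ∈ x.coeff.support, ‖x.coeff g‖

lemma l1_eq (x : MonoidAlgebra 𝔸 G) (T : Finset G) (h : x.coeff.support ⊆ T) :
    l1 x = ∑ g ∈ T, ‖x.coeff g‖ := by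
  unfold l1
  apply Finset.sum_subset h
  intro g _ hg
  rw [Finsupp.notMem_support_iff.1 hg, norm_zero]

lemma l1_nonneg (x : MonoidAlgebra 𝔸 G) : 0 ≤ l1 x := Finset.sum_nonneg fun _ _ => norm_nonneg _

lemma l1_zero : l1 (0 : MonoidAlgebra 𝔸 G) = 0 := by
  unfold l1
  simp

lemma l1_add (x y : MonoidAlgebra 𝔸 G) : l1 (x + y) ≤ l1 x + l1 y := by
  classical
  have h1 : (x + y).coeff.support ⊆ x.coeff.support ∪ y.coeff.support := by
    rw [coeff_add]
    exact Finsupp.support_add
  rw [l1_eq _ _ h1, l1_eq x _ Finset.subset_union_left,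
    l1_eq y _ (Finset.subset_union_right (s₁ := x.coeff.support)), ← Finset.sum_add_distrib]
  apply Finset.sum_le_sum
  intro g _
  rw [coeff_add, Finsupp.add_apply]
  exact norm_add_le _ _

lemma l1_neg (x : MonoidAlgebra 𝔸 G) : l1 (-x) = l1 x := by
  unfold l1
  rw [coeff_neg, Finsupp.support_neg]
  apply Finset.sum_congr rfl
  intro g _
  rw [Finsupp.neg_apply, norm_neg]

lemma l1_sub (x y : MonoidAlgebra 𝔸 G) : l1 (x - y) ≤ l1 x + l1 y := by
  rw [sub_eq_add_neg, ← l1_neg y]
  exact l1_add _ _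

lemma l1_sum {ι : Type*} (s : Finset ι) (f : ι → MonoidAlgebra 𝔸 G) :
    l1 (∑ i ∈ s, f i) ≤ ∑ i ∈ s, l1 (f i) := by
  classical
  induction s using Finset.induction_on with
  | empty => simp [l1_zero]
  | insert a s ha ih =>
    rw [Finset.sum_insert ha, Finset.sum_insert ha]
    exact (l1_add _ _).trans (by linarith)

lemma l1_single (g : G) (r : 𝔸) : l1 (single g r) = ‖r‖ := by
  classical
  have h : (single g r).coeff.support ⊆ {g} := by
    rw [coeff_single]
    exact Finsupp.support_single_subset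
  rw [l1_eq _ _ h, Finset.sum_singleton, coeff_single, Finsupp.single_eq_same]

lemma l1_single_mul (g : G) (r : 𝔸) (y : MonoidAlgebra 𝔸 G) :
    l1 (single g r * y) ≤ ‖r‖ * l1 y := by
  classical
  have h : (single g r * y).coeff.support ⊆ y.coeff.support.image (fun h => g * h) := by
    intro h hh
    rw [Finsupp.mem_support_iff, coeff_single_mul_apply] at hh
    refine Finset.mem_image.2 ⟨g⁻¹ * h, ?_, by simp⟩
    rw [Finsupp.mem_support_iff]
    intro h0
    exact hh (by rw [h0, mul_zero])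
  rw [l1_eq _ _ h, Finset.sum_image fun a _ c _ hac => mul_left_cancel hac]
  unfold l1
  rw [Finset.mul_sum]
  apply Finset.sum_le_sum
  intro k _
  rw [coeff_single_mul_apply, inv_mul_cancel_left]
  exact norm_mul_le _ _

lemma l1_mul (x y : MonoidAlgebra 𝔸 G) : l1 (x * y) ≤ l1 x * l1 y := by
  have h : x * y = ∑ g ∈ x.coeff.support, single g (x.coeff g) * y := by
    conv_lhs => rw [← sum_coeff_single x]
    rw [Finsupp.sum, Finset.sum_mul]
  rw [h]
  refine (l1_sum _ _).trans ?_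
  unfold l1
  rw [Finset.sum_mul]
  exact Finset.sum_le_sum fun g _ => l1_single_mul g _ y

/-- the class function attached to a trace -/
def Tr {B : Type*} [AddCommGroup B] (g : G) (t : 𝔸 →+ B) (x : MonoidAlgebra 𝔸 G) : B :=
  open Classical in x.coeff.sum fun h r => if IsConj g h then t r else 0

section Tr

variable {B : Type*} [AddCommGroup B] (g : G) (t : 𝔸 →+ B)

lemma Tr_add (x y : MonoidAlgebra 𝔸 G) : Tr g t (x + y) = Tr g t x + Tr g t y := by
  classical
  unfold Tr
  rw [coeff_add]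
  apply Finsupp.sum_add_index'
  · intro h; simp
  · intro h r s
    split_ifs <;> simp

lemma Tr_zero : Tr g t (0 : MonoidAlgebra 𝔸 G) = 0 := by
  unfold Tr
  simp

open Classical in
lemma Tr_single (h : G) (r : 𝔸) : Tr g t (single h r) = if IsConj g h then t r else 0 := by
  unfold Tr
  rw [coeff_single, Finsupp.sum_single_index]
  simp

lemma Tr_neg (x : MonoidAlgebra 𝔸 G) : Tr g t (-x) = -Tr g t x := by
  have h := Tr_add g t x (-x)
  rw [add_neg_cancel, Tr_zero] at h
  exact (neg_eq_of_add_eq_zero_right h.symm).symm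

lemma Tr_sub (x y : MonoidAlgebra 𝔸 G) : Tr g t (x - y) = Tr g t x - Tr g t y := by
  rw [sub_eq_add_neg, Tr_add, Tr_neg, sub_eq_add_neg]

lemma Tr_comm (ht : ∀ a b, t (a * b) = t (b * a)) (x y : MonoidAlgebra 𝔸 G) :
    Tr g t (x * y) = Tr g t (y * x) := by
  classical
  induction x using MonoidAlgebra.induction_linear with
  | zero => simp
  | add x₁ x₂ h1 h2 => rw [add_mul, mul_add, Tr_add, Tr_add, h1, h2]
  | single h r =>
    induction y using MonoidAlgebra.induction_linear with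
    | zero => simp
    | add y₁ y₂ h1 h2 => rw [add_mul, mul_add, Tr_add, Tr_add, h1, h2]
    | single k s =>
      rw [single_mul_single, single_mul_single, Tr_single, Tr_single, ht r s]
      have h1 : IsConj g (h * k) ↔ IsConj g (k * h) := by
        have h2 : IsConj (h * k) (k * h) := isConj_iff.2 ⟨h⁻¹, by group⟩
        exact ⟨fun h3 => h3.trans h2, fun h3 => h3.trans h2.symm⟩
      by_cases h2 : IsConj g (h * k)
      · rw [if_pos h2, if_pos (h1.1 h2)]
      · rw [if_neg h2, if_neg (fun h3 => h2 (h1.2 h3))]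

end Tr

lemma Tr_le {B : Type*} [NormedAddCommGroup B] (g : G) (t : 𝔸 →+ B) (C : ℝ) (hC : 0 ≤ C)
    (ht : ∀ a, ‖t a‖ ≤ C * ‖a‖) (x : MonoidAlgebra 𝔸 G) : ‖Tr g t x‖ ≤ C * l1 x := by
  classical
  unfold Tr l1
  rw [Finsupp.sum, Finset.mul_sum]
  refine (norm_sum_le _ _).trans (Finset.sum_le_sum fun h _ => ?_)
  split_ifs
  · exact ht _
  · rw [norm_zero]
    exact mul_nonneg hC (norm_nonneg _)

/-- the identities of Kato for two idempotents -/
lemma kato {R : Type*} [Ring R] (P e : R) (hP : P * P = P) (he : e * e = e) :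
    P * (P * e + (1 - P) * (1 - e)) = (P * e + (1 - P) * (1 - e)) * e ∧
      (P * e + (1 - P) * (1 - e)) * (e * P + (1 - e) * (1 - P)) = 1 - (e - P) ^ 2 ∧
      (e * P + (1 - e) * (1 - P)) * (P * e + (1 - P) * (1 - e)) = 1 - (e - P) ^ 2 ∧
      Commute ((e - P) ^ 2) (P * e + (1 - P) * (1 - e)) ∧ Commute ((e - P) ^ 2) e := by
  have hP' : ∀ x, P * (P * x) = P * x := fun x => by rw [← mul_assoc, hP]
  have he' : ∀ x, e * (e * x) = e * x := fun x => by rw [← mul_assoc, he]
  refine ⟨?_, ?_, ?_, ?_, ?_⟩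
  · simp only [mul_add, add_mul, mul_sub, sub_mul, mul_one, one_mul, mul_assoc, hP, he, hP', he']
    abel
  · simp only [pow_two, mul_add, add_mul, mul_sub, sub_mul, mul_one, one_mul, mul_assoc, hP, he,
      hP', he']
    abel
  · simp only [pow_two, mul_add, add_mul, mul_sub, sub_mul, mul_one, one_mul, mul_assoc, hP, he,
      hP', he']
    abel
  · show _ = _
    simp only [pow_two, mul_add, add_mul, mul_sub, sub_mul, mul_one, one_mul, mul_assoc, hP, he,
      hP', he']
    abel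
  · show _ = _
    simp only [pow_two, mul_add, add_mul, mul_sub, sub_mul, mul_one, one_mul, mul_assoc, hP, he,
      hP', he']
    abel

/-- approximate inverses of the intertwiner -/
lemma approx_inv {R : Type*} [Ring R] (P e : R) (hP : P * P = P) (he : e * e = e) (n : ℕ) :
    (P * e + (1 - P) * (1 - e)) * ((e * P + (1 - e) * (1 - P)) *
        ∑ i ∈ Finset.range n, ((e - P) ^ 2) ^ i) = 1 - ((e - P) ^ 2) ^ n ∧
      ((e * P + (1 - e) * (1 - P)) * ∑ i ∈ Finset.range n, ((e - P) ^ 2) ^ i) *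
        (P * e + (1 - P) * (1 - e)) = 1 - ((e - P) ^ 2) ^ n := by
  obtain ⟨h1, h2, h3, h4, h5⟩ := kato P e hP he
  have h6 : Commute (∑ i ∈ Finset.range n, ((e - P) ^ 2) ^ i)
      (P * e + (1 - P) * (1 - e)) := by
    refine Commute.sum_left _ _ _ fun i _ => ?_
    exact h4.pow_left i
  constructor
  · rw [← mul_assoc, h2]
    exact mul_neg_geom_sum _ n
  · rw [mul_assoc, h6.eq, ← mul_assoc, h3]
    exact mul_neg_geom_sum _ n

/-- traces of close idempotents agree -/
theorem trace_eq {B : Type*} [NormedAddCommGroup B] (g : G) (t : 𝔸 →+ B) (C : ℝ) (hC : 0 ≤ C)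
    (ht : ∀ a, ‖t a‖ ≤ C * ‖a‖) (htc : ∀ a b, t (a * b) = t (b * a))
    (P e : MonoidAlgebra 𝔸 G) (hP : P * P = P) (he : e * e = e)
    (θ : ℝ) (hθ1 : θ < 1) (hθ : l1 ((e - P) ^ 2) ≤ θ) :
    Tr g t e = Tr g t P := by
  obtain ⟨h1, h2, h3, h4, h5⟩ := kato P e hP he
  set x := (e - P) ^ 2 with hx
  have hθ0 : 0 ≤ θ := (l1_nonneg _).trans hθ
  have hpow : ∀ n : ℕ, ∀ y : MonoidAlgebra 𝔸 G, l1 (y * x ^ n) ≤ l1 y * θ ^ n := by
    intro n y
    induction n with
    | zero => simp
    | succ n ih =>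
      rw [pow_succ, ← mul_assoc]
      refine (l1_mul _ _).trans ?_
      calc l1 (y * x ^ n) * l1 x ≤ (l1 y * θ ^ n) * θ :=
            mul_le_mul ih hθ (l1_nonneg _) (mul_nonneg (l1_nonneg _) (pow_nonneg hθ0 _))
        _ = _ := by ring
  have hkey : ∀ n : ℕ, Tr g t e - Tr g t P = Tr g t (e * x ^ n) - Tr g t (P * x ^ n) := by
    intro n
    obtain ⟨h6, h7⟩ := approx_inv P e hP he n
    rw [← hx] at h6 h7
    set U := P * e + (1 - P) * (1 - e) with hU
    set V := (e * P + (1 - e) * (1 - P)) * ∑ i ∈ Finset.range n, x ^ i with hV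
    have h8 : (U * e) * V = P - P * x ^ n := by
      rw [← h1, mul_assoc, h6, mul_sub, mul_one]
    have h9 : e * (V * U) = e - e * x ^ n := by
      rw [h7, mul_sub, mul_one]
    have h10 := Tr_comm g t htc U (e * V)
    rw [← mul_assoc, h8, mul_assoc, h9, Tr_sub, Tr_sub] at h10
    rw [sub_eq_sub_iff_add_eq_add] at h10 ⊢
    rw [← h10, add_comm]
  have hlim : ∀ n : ℕ, ‖Tr g t e - Tr g t P‖ ≤ (C * (l1 e + l1 P)) * θ ^ n := by
    intro n
    rw [hkey n]
    refine (norm_sub_le _ _).trans ?_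
    have h3 := Tr_le g t C hC ht (e * x ^ n)
    have h4 := Tr_le g t C hC ht (P * x ^ n)
    have h5 := mul_le_mul_of_nonneg_left (hpow n e) hC
    have h6 := mul_le_mul_of_nonneg_left (hpow n P) hC
    calc _ ≤ C * (l1 e * θ ^ n) + C * (l1 P * θ ^ n) := by linarith
      _ = _ := by ring
  have h0 : ‖Tr g t e - Tr g t P‖ ≤ 0 := by
    have h3 : Filter.Tendsto (fun n : ℕ => (C * (l1 e + l1 P)) * θ ^ n) Filter.atTop
        (nhds ((C * (l1 e + l1 P)) * 0)) :=
      (tendsto_pow_atTop_nhds_zero_of_lt_one hθ0 hθ1).const_mul _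
    rw [mul_zero] at h3
    exact ge_of_tendsto' h3 hlim
  exact sub_eq_zero.1 (norm_le_zero_iff.1 h0)

end TH357EN
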